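import Pool.Graph.R_seed8.Helper569.FaultyDefs
import Pool.Agent.KS6_61.FS.Final

open Pool.Agent.Helper569.Faulty

namespace Pool.Agent.Results.MP_75ee99_lc.SharpOrder

/-- Cyclic monotone trajectories are never optimal, and the exact order of the loss.
For every detection probability `0 < p < 1`:
(1) the least competitive ratio of a cyclic monotone trajectory is exactly `8 + p²/(2-p)`, and it
is attained;
(2) there is one trajectory whose competitive ratio is smaller by at least `p(1-p)/5` than that of
every cyclic monotone trajectory;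
(3) every trajectory whatsoever has competitive ratio at least `9p` and at least `2(1+√(1-p))²`;
(4) hence the difference between the two infima is between `p(1-p)/5` and `13p(1-p)`. -/
theorem result (p : ℝ) (hp0 : 0 < p) (hp1 : p < 1) :
    (∃ y : ℕ → ℝ, IsTrajectory y ∧ IsCyclicMonotone y ∧
      competitiveRatio p y = ENNReal.ofReal (8 + p ^ 2 / (2 - p)) ∧
      ∀ z : ℕ → ℝ, IsTrajectory z → IsCyclicMonotone z →
        competitiveRatio p y ≤ competitiveRatio p z) ∧
    (∃ y : ℕ → ℝ, IsTrajectory y ∧ ∀ z : ℕ → ℝ, IsTrajectory z → IsCyclicMonotone z →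
      competitiveRatio p y + ENNReal.ofReal (p * (1 - p) / 5) ≤ competitiveRatio p z) ∧
    (∀ y : ℕ → ℝ, IsTrajectory y →
      ENNReal.ofReal (9 * p) ≤ competitiveRatio p y ∧
      ENNReal.ofReal (2 * (1 + √(1 - p)) ^ 2) ≤ competitiveRatio p y) ∧
    (⨅ (y : ℕ → ℝ) (_ : IsTrajectory y), competitiveRatio p y) +
        ENNReal.ofReal (p * (1 - p) / 5) ≤
      (⨅ (y : ℕ → ℝ) (_ : IsTrajectory y) (_ : IsCyclicMonotone y), competitiveRatio p y) ∧
    (⨅ (y : ℕ → ℝ) (_ : IsTrajectory y) (_ : IsCyclicMonotone y), competitiveRatio p y) ≤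
      (⨅ (y : ℕ → ℝ) (_ : IsTrajectory y), competitiveRatio p y) +
        ENNReal.ofReal (13 * p * (1 - p)) :=
  Pool.Agent.KS6_61.FS.main hp0 hp1

end Pool.Agent.Results.MP_75ee99_lc.SharpOrder
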